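import Mathlib

namespace Pool.Agent.H.MP_75f5df_co

open SimpleGraph

universe u
variable {V : Type u} {G : SimpleGraph V}

def Nice (G : SimpleGraph V) (S : Set V) : Prop :=
  (G.induce S).Connected ∧ ∀ v ∈ S, (G.induce (S \ {v})).Preconnected

def Rch (G : SimpleGraph V) (S : Set V) : V → V → Prop :=
  Relation.ReflTransGen (fun x y => G.Adj x y ∧ x ∈ S ∧ y ∈ S)

theorem Rch.mono {S T : Set V} (h : S ⊆ T) {a b : V} (r : Rch G S a b) : Rch G T a b := by
  induction r with
  | refl => exact Relation.ReflTransGen.refl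
  | tail _ h2 ih => exact ih.tail ⟨h2.1, h h2.2.1, h h2.2.2⟩

theorem Rch.symm {S : Set V} {a b : V} (r : Rch G S a b) : Rch G S b a := by
  induction r with
  | refl => exact Relation.ReflTransGen.refl
  | tail _ h2 ih => exact Relation.ReflTransGen.head ⟨h2.1.symm, h2.2.2, h2.2.1⟩ ih

theorem Rch.trans {S : Set V} {a b c : V} (r : Rch G S a b) (s : Rch G S b c) : Rch G S a c :=
  Relation.ReflTransGen.trans r s

theorem rch_walk {S : Set V} {a b : V} (W : G.Walk a b) (h : ∀ x ∈ W.support, x ∈ S) :
    Rch G S a b := by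
  induction W with
  | nil => exact Relation.ReflTransGen.refl
  | cons hadj W ih =>
    refine Relation.ReflTransGen.head ⟨hadj, h _ (by simp), h _ (by simp)⟩ (ih ?_)
    intro x hx
    exact h x (by simp [hx])

theorem pre_iff {S : Set V} :
    (G.induce S).Preconnected ↔ ∀ a ∈ S, ∀ b ∈ S, Rch G S a b := by
  constructor
  · intro h a ha b hb
    obtain ⟨W⟩ := h ⟨a, ha⟩ ⟨b, hb⟩
    have : ∀ (x y : S) (W : (G.induce S).Walk x y), Rch G S x y := by
      intro x y W
      induction W with
      | nil => exact Relation.ReflTransGen.refl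
      | @cons x z y hadj W ih => exact Relation.ReflTransGen.head ⟨hadj, x.2, z.2⟩ ih
    exact this _ _ W
  · intro h a b
    have : ∀ (x y : V), Rch G S x y → ∀ (hx : x ∈ S) (hy : y ∈ S),
        (G.induce S).Reachable ⟨x, hx⟩ ⟨y, hy⟩ := by
      intro x y r
      induction r with
      | refl => intro _ _; exact Reachable.refl _
      | tail _ h2 ih =>
        intro hx hy
        refine (ih hx h2.2.1).trans (Adj.reachable ?_)
        exact h2.1
    exact this _ _ (h a a.2 b b.2) a.2 b.2

theorem nice_iff {S : Set V} : Nice G S ↔ S.Nonempty ∧ (∀ a ∈ S, ∀ b ∈ S, Rch G S a b) ∧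
    ∀ v ∈ S, ∀ a ∈ S \ {v}, ∀ b ∈ S \ {v}, Rch G (S \ {v}) a b := by
  unfold Nice
  rw [connected_iff, pre_iff]
  simp only [pre_iff, Set.nonempty_coe_sort]
  tauto

theorem exists_block {S : Set V} (h : Nice G S) : ∃ B, S ⊆ B ∧ Maximal (Nice G) B := by
  have := zorn_subset_nonempty {S | Nice G S} ?_ S h
  · exact this
  intro c hc hchain hne
  refine ⟨⋃₀ c, ?_, fun s hs => Set.subset_sUnion_of_mem hs⟩
  have two : ∀ a ∈ ⋃₀ c, ∀ b ∈ ⋃₀ c, ∃ s ∈ c, a ∈ s ∧ b ∈ s := by
    rintro a ⟨s, hs, has⟩ b ⟨t, ht, hbt⟩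
    rcases hchain.total hs ht with h | h
    · exact ⟨t, ht, h has, hbt⟩
    · exact ⟨s, hs, has, h hbt⟩
  change Nice G _
  rw [nice_iff]
  refine ⟨?_, ?_, ?_⟩
  · obtain ⟨s, hs⟩ := hne
    obtain ⟨x, hx⟩ := (nice_iff.1 (hc hs)).1
    exact ⟨x, s, hs, hx⟩
  · intro a ha b hb
    obtain ⟨s, hs, has, hbs⟩ := two a ha b hb
    exact ((nice_iff.1 (hc hs)).2.1 a has b hbs).mono (Set.subset_sUnion_of_mem hs)
  · intro v _ a ha b hb
    obtain ⟨s, hs, has, hbs⟩ := two a ha.1 b hb.1
    by_cases hv : v ∈ s
    · exact ((nice_iff.1 (hc hs)).2.2 v hv a ⟨has, ha.2⟩ b ⟨hbs, hb.2⟩).mono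
        (fun x (hx : x ∈ s \ {v}) => (⟨⟨s, hs, hx.1⟩, hx.2⟩ : x ∈ ⋃₀ c \ {v}))
    · exact ((nice_iff.1 (hc hs)).2.1 a has b hbs).mono
        (fun x (hx : x ∈ s) => (⟨⟨s, hs, hx⟩,
          fun e => hv (by rw [← (Set.mem_singleton_iff.1 e)]; exact hx)⟩ : x ∈ ⋃₀ c \ {v}))

theorem nice_two {S : Set V} {a w : V} (ha : a ∈ S) (hw : w ∈ S) (hne : a ≠ w)
    (h1 : ∀ x ∈ S, x ≠ a → G.Adj x a) (h2 : ∀ x ∈ S, x ≠ w → G.Adj x w) : Nice G S := by
  have key : ∀ (T : Set V) (c : V), c ∈ T → (∀ x ∈ T, x ≠ c → G.Adj x c) →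
      ∀ x ∈ T, ∀ y ∈ T, Rch G T x y := by
    intro T c hc h x hx y hy
    have : ∀ x ∈ T, Rch G T x c := by
      intro x hx
      by_cases e : x = c
      · subst e; exact Relation.ReflTransGen.refl
      · exact Relation.ReflTransGen.single ⟨h x hx e, hx, hc⟩
    exact (this x hx).trans (this y hy).symm
  rw [nice_iff]
  refine ⟨⟨a, ha⟩, key S a ha h1, ?_⟩
  intro v _
  by_cases e : v = a
  · subst e
    exact key _ w ⟨hw, fun e => hne (Set.mem_singleton_iff.1 e).symm⟩ (fun x hx => h2 x hx.1)
  · exact key _ a ⟨ha, fun e' => e (Set.mem_singleton_iff.1 e').symm⟩ (fun x hx => h1 x hx.1)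

def Cyc (G : SimpleGraph V) : Prop :=
  ∀ (a u w : V) (W : G.Walk u w), G.Adj a u → G.Adj a w → u ≠ w → a ∉ W.support → G.Adj u w

theorem cyc_of (hcl : ∀ B, Maximal (Nice G) B → G.IsClique B) : Cyc G := by
  classical
  intro a u w W0 hu hw hne ha0
  set W := W0.bypass with hW
  have hp : W.IsPath := W0.bypass_isPath
  have ha : a ∉ W.support := fun h => ha0 (W0.support_bypass_subset_support h)
  have hn : Nice G (insert a {x | x ∈ W.support}) := by
    rw [nice_iff]
    refine ⟨⟨a, Or.inl rfl⟩, ?_, ?_⟩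
    · have : ∀ x ∈ insert a {x | x ∈ W.support}, Rch G (insert a {x | x ∈ W.support}) u x := by
        intro x hx
        rcases hx with rfl | hx
        · exact Relation.ReflTransGen.single ⟨hu.symm, Or.inr (by simp), Or.inl rfl⟩
        · exact rch_walk (W.takeUntil x hx)
            (fun y hy => Or.inr (W.support_takeUntil_subset_support hx hy))
      intro x hx y hy
      exact (this x hx).symm.trans (this y hy)
    · intro v hv
      by_cases e : v = a
      · subst e
        have : ∀ x ∈ insert v {x | x ∈ W.support} \ {v},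
            Rch G (insert v {x | x ∈ W.support} \ {v}) u x := by
          rintro x ⟨hx, hxv⟩
          rcases hx with rfl | hx
          · exact absurd rfl hxv
          · refine rch_walk (W.takeUntil x hx) (fun y hy => ?_)
            have hy' := W.support_takeUntil_subset_support hx hy
            exact ⟨Or.inr hy', fun e => ha (by rw [← Set.mem_singleton_iff.1 e]; exact hy')⟩
        intro x hx y hy
        exact (this x hx).symm.trans (this y hy)
      · have haT : a ∈ insert a {x | x ∈ W.support} \ {v} :=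
          ⟨Or.inl rfl, fun e' => e (Set.mem_singleton_iff.1 e').symm⟩
        have : ∀ x ∈ insert a {x | x ∈ W.support} \ {v},
            Rch G (insert a {x | x ∈ W.support} \ {v}) x a := by
          rintro x ⟨hx, hxv⟩
          rcases hx with rfl | hx
          · exact Relation.ReflTransGen.refl
          · by_cases h1 : v ∈ (W.takeUntil x hx).support
            · have h2 : v ∉ (W.dropUntil x hx).support := by
                intro h2
                have hnd := hp.support_nodup
                rw [← W.take_spec hx, Walk.support_append] at hnd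
                rcases (Walk.mem_support_iff _).1 h2 with h3 | h3
                · exact hxv h3.symm
                · exact (List.nodup_append.1 hnd).2.2 v h1 v h3 rfl
              have hs : ∀ y ∈ (W.dropUntil x hx).support,
                  y ∈ insert a {x | x ∈ W.support} \ {v} := fun y hy =>
                ⟨Or.inr (W.support_dropUntil_subset_support hx hy),
                  fun e => h2 (by rw [← Set.mem_singleton_iff.1 e]; exact hy)⟩
              exact (rch_walk _ hs).tail ⟨hw.symm, hs w (by simp), haT⟩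
            · have hs : ∀ y ∈ (W.takeUntil x hx).support,
                  y ∈ insert a {x | x ∈ W.support} \ {v} := fun y hy =>
                ⟨Or.inr (W.support_takeUntil_subset_support hx hy),
                  fun e => h1 (by rw [← Set.mem_singleton_iff.1 e]; exact hy)⟩
              exact (rch_walk _ hs).symm.tail ⟨hu.symm, hs u (by simp), haT⟩
        intro x hx y hy
        exact (this x hx).trans (this y hy).symm
  obtain ⟨B, hB, hmax⟩ := exists_block hn
  exact hcl B hmax (hB (Or.inr (by simp))) (hB (Or.inr (by simp))) hne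

open Cardinal in
theorem coords (m k : Cardinal.{u})
    (hcl : ∀ B, Maximal (Nice G) B → G.IsClique B ∧ #B = k + 1)
    (hm : ∀ v, #{B : Set V // Maximal (Nice G) B ∧ v ∈ B} = m) (a : V) :
    ∃ c : G.neighborSet a ≃ m.out × k.out,
      ∀ x y : G.neighborSet a, G.Adj x y ↔ ((c x).1 = (c y).1 ∧ x ≠ y) := by
  classical
  have ex : ∀ x : G.neighborSet a, ∃ B : {B : Set V // Maximal (Nice G) B ∧ a ∈ B},
      x.1 ∈ B.1 := by
    intro x
    have hx : G.Adj a x := x.2
    have : Nice G {a, x.1} := by
      refine nice_two (a := a) (w := x.1) (by simp) (by simp) hx.ne ?_ ?_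
      · rintro y (rfl | rfl) h
        · exact absurd rfl h
        · exact hx.symm
      · rintro y (rfl | rfl) h
        · exact hx
        · exact absurd rfl h
    obtain ⟨B, hB, hmax⟩ := exists_block this
    exact ⟨⟨B, hmax, hB (by simp)⟩, hB (by simp)⟩
  choose bl hbl using ex
  have uniq : ∀ (x : G.neighborSet a) (B : {B : Set V // Maximal (Nice G) B ∧ a ∈ B}),
      x.1 ∈ B.1 → bl x = B := by
    intro x B hxB
    have hx : G.Adj a x := x.2
    have h1 := (hcl _ (bl x).2.1).1
    have h2 := (hcl _ B.2.1).1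
    have hn : Nice G ((bl x).1 ∪ B.1) := by
      refine nice_two (a := a) (w := x.1) (Or.inr B.2.2) (Or.inr hxB) hx.ne ?_ ?_
      · rintro y (hy | hy) h
        · exact h1 hy (bl x).2.2 h
        · exact h2 hy B.2.2 h
      · rintro y (hy | hy) h
        · exact h1 hy (hbl x) h
        · exact h2 hy hxB h
    have e1 := (bl x).2.1.eq_of_le hn Set.subset_union_left
    have e2 := B.2.1.eq_of_le hn Set.subset_union_right
    exact Subtype.ext (e1.trans e2.symm)
  have fib : ∀ B : {B : Set V // Maximal (Nice G) B ∧ a ∈ B},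
      Nonempty ({x // bl x = B} ≃ k.out) := by
    intro B
    have h2 := (hcl _ B.2.1).1
    have e1 : {x // bl x = B} ≃ (B.1 \ {a} : Set V) :=
      { toFun := fun x => ⟨x.1.1, by have := hbl x.1; rw [x.2] at this; exact this,
          fun e => (show G.Adj a x.1.1 from x.1.2).ne (Set.mem_singleton_iff.1 e).symm⟩
        invFun := fun y => ⟨⟨y.1, h2 B.2.2 y.2.1 (fun e => y.2.2 e.symm)⟩, uniq _ _ y.2.1⟩
        left_inv := fun x => rfl
        right_inv := fun y => rfl }
    have e2 : #(B.1 \ {a} : Set V) = k := by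
      have := Cardinal.mk_sdiff_add_mk (S := B.1) (T := {a}) (by simpa using B.2.2)
      rw [Cardinal.mk_singleton, (hcl _ B.2.1).2] at this
      exact Cardinal.add_one_inj.1 this
    rw [← Cardinal.eq, Cardinal.mk_out, ← e2]
    exact Cardinal.mk_congr e1
  have eι : Nonempty ({B : Set V // Maximal (Nice G) B ∧ a ∈ B} ≃ m.out) := by
    rw [← Cardinal.eq, Cardinal.mk_out]; exact hm a
  obtain ⟨eι⟩ := eι
  refine ⟨(Equiv.sigmaFiberEquiv bl).symm.trans ((Equiv.sigmaCongrRight
    (fun B => (fib B).some)).trans ((Equiv.sigmaEquivProd _ _).trans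
    (Equiv.prodCongr eι (Equiv.refl _)))), ?_⟩
  intro x y
  change G.Adj x y ↔ eι (bl x) = eι (bl y) ∧ x ≠ y
  rw [eι.apply_eq_iff_eq]
  have hx : G.Adj a x := x.2
  have hy : G.Adj a y := y.2
  constructor
  · intro h
    refine ⟨?_, fun e => h.ne (congrArg Subtype.val e)⟩
    have : Nice G {a, x.1, y.1} := by
      refine nice_two (a := a) (w := x.1) (by simp) (by simp) hx.ne ?_ ?_
      · rintro z (rfl | rfl | rfl) h'
        · exact absurd rfl h'
        · exact hx.symm
        · exact hy.symm
      · rintro z (rfl | rfl | rfl) h'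
        · exact hx
        · exact absurd rfl h'
        · exact h.symm
    obtain ⟨B, hB, hmax⟩ := exists_block this
    rw [uniq x ⟨B, hmax, hB (by simp)⟩ (hB (by simp)),
      uniq y ⟨B, hmax, hB (by simp)⟩ (hB (by simp))]
  · rintro ⟨h, hne⟩
    exact (hcl _ (bl x).2.1).1 (hbl x) (by rw [h]; exact hbl y) (fun e => hne (Subtype.ext e))

end Pool.Agent.H.MP_75f5df_co
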