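import Pool.Agent.H.MP_75f5df_co.A

namespace Pool.Agent.H.MP_75f5df_co

open SimpleGraph

universe u
variable {V : Type u} {G : SimpleGraph V}

def RP (G : SimpleGraph V) (r : V) (par : V → V) : Prop :=
  (∀ v, G.Adj v (par v)) ∧ ∀ v, v ≠ r → G.dist (par v) r + 1 = G.dist v r

theorem exists_par (hc : G.Connected) {r p : V} (h : G.Adj r p) :
    ∃ par, RP G r par ∧ par r = p := by
  classical
  have : ∀ v, ∃ q, G.Adj v q ∧ (v ≠ r → G.dist q r + 1 = G.dist v r) ∧ (v = r → q = p) := by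
    intro v
    by_cases e : v = r
    · subst e; exact ⟨p, h, fun h => absurd rfl h, fun _ => rfl⟩
    · obtain ⟨W, hW⟩ := hc.exists_walk_length_eq_dist v r
      cases W with
      | nil => exact absurd rfl e
      | @cons _ q _ hadj W =>
        refine ⟨q, hadj, fun _ => ?_, fun h => absurd h e⟩
        have h1 := G.dist_le W
        have h2 := hc.dist_triangle (u := v) (v := q) (w := r)
        rw [dist_eq_one_iff_adj.2 hadj] at h2
        simp at hW
        omega
  choose par h1 h2 h3 using this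
  exact ⟨par, ⟨h1, h2⟩, h3 r rfl⟩

theorem adj_dist (hc : G.Connected) {x y : V} (h : G.Adj x y) (r : V) :
    G.dist x r ≤ G.dist y r + 1 := by
  have h2 := hc.dist_triangle (u := x) (v := y) (w := r)
  rw [dist_eq_one_iff_adj.2 h] at h2
  omega

theorem short_mem {q r a : V} (W : G.Walk q r) (hW : W.length = G.dist q r)
    (ha : a ∈ W.support) : G.dist a r ≤ G.dist q r ∧ (G.dist q r ≤ G.dist a r → a = q) := by
  classical
  have h1 := congrArg Walk.length (W.take_spec ha)
  rw [Walk.length_append] at h1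
  have h2 := G.dist_le (W.dropUntil a ha)
  refine ⟨by omega, fun h => ?_⟩
  have : (W.takeUntil a ha).length = 0 := by omega
  exact (Walk.eq_of_length_eq_zero this).symm

theorem ch_iff (hc : G.Connected) (hK : Cyc G) {r : V} {par : V → V} (h : RP G r par)
    (a w : V) : (w ≠ r ∧ par w = a) ↔
      (G.Adj a w ∧ (a = r ∨ (w ≠ par a ∧ ¬ G.Adj w (par a)))) := by
  constructor
  · rintro ⟨hw, rfl⟩
    refine ⟨(h.1 w).symm, ?_⟩
    by_cases e : par w = r
    · exact Or.inl e
    · have h1 := h.2 w hw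
      have h2 := h.2 _ e
      refine Or.inr ⟨fun e' => ?_, fun e' => ?_⟩
      · rw [← e'] at h2; omega
      · have := adj_dist hc e' r; omega
  · rintro ⟨hadj, h'⟩
    by_cases e : a = r
    · subst e
      refine ⟨hadj.ne', ?_⟩
      have h1 := h.2 w hadj.ne'
      rw [dist_eq_one_iff_adj.2 hadj.symm] at h1
      exact (hc.dist_eq_zero_iff).1 (by omega)
    · obtain ⟨h1, h2⟩ := h'.resolve_left e
      obtain ⟨P, hP⟩ := hc.exists_walk_length_eq_dist (par a) r
      have hPa : a ∉ P.support := fun hm => by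
        have := (short_mem P hP hm).1
        have := h.2 a e
        omega
      have all : ∀ W : G.Walk w r, a ∈ W.support := by
        intro W
        by_contra hW
        refine h2 (hK a w (par a) (W.append P.reverse) hadj (h.1 a) h1 ?_)
        simp [Walk.mem_support_append_iff, hW, hPa]
      have hw : w ≠ r := by
        rintro rfl
        have := all Walk.nil
        simp at this
        exact e this
      refine ⟨hw, ?_⟩
      obtain ⟨Q, hQ⟩ := hc.exists_walk_length_eq_dist (par w) r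
      have := all (Walk.cons (h.1 w) Q)
      simp only [Walk.support_cons, List.mem_cons] at this
      rcases this with h3 | h3
      · exact absurd h3 hadj.ne
      · have h4 := adj_dist hc hadj.symm r
        have h5 := h.2 w hw
        exact ((short_mem Q hQ h3).2 (by omega)).symm

theorem tri (hc : G.Connected) (hK : Cyc G) {r : V} {par : V → V} (h : RP G r par)
    {v w : V} (hadj : G.Adj v w) : (w ≠ r ∧ par w = v) ∨ (v ≠ r ∧ par v = w) ∨
      (v ≠ r ∧ w ≠ r ∧ par v = par w) := by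
  by_cases h1 : w ≠ r ∧ par w = v
  · exact Or.inl h1
  by_cases h2 : v ≠ r ∧ par v = w
  · exact Or.inr (Or.inl h2)
  right; right
  have h1' := h1
  have h2' := h2
  rw [ch_iff hc hK h] at h1' h2'
  have hv : v ≠ r := fun e => h1' ⟨hadj, Or.inl e⟩
  have hw : w ≠ r := fun e => h2' ⟨hadj.symm, Or.inl e⟩
  have a1 : G.Adj w (par v) := by
    by_contra hn
    exact h1' ⟨hadj, Or.inr ⟨fun e => h2 ⟨hv, e.symm⟩, hn⟩⟩
  have a2 : G.Adj v (par w) := by
    by_contra hn
    exact h2' ⟨hadj.symm, Or.inr ⟨fun e => h1 ⟨hw, e.symm⟩, hn⟩⟩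
  refine ⟨hv, hw, ?_⟩
  have d1 := adj_dist hc a1 r
  have d2 := adj_dist hc a2 r
  have d3 := h.2 v hv
  have d4 := h.2 w hw
  refine ((ch_iff hc hK h (par w) v).2 ⟨a2.symm, ?_⟩).2
  by_cases e : par w = r
  · exact Or.inl e
  · have d5 := h.2 _ e
    refine Or.inr ⟨fun e' => ?_, fun e' => ?_⟩
    · rw [← e'] at d5; omega
    · have := adj_dist hc e' r; omega

structure Loc (G : SimpleGraph V) (par par' : V → V) (φ : V → V → V → V) : Prop where
  adj : ∀ a b x, G.Adj a x → G.Adj b (φ a b x)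
  iff : ∀ a b x y, G.Adj a x → G.Adj a y → (G.Adj (φ a b x) (φ a b y) ↔ G.Adj x y)
  inj : ∀ a b x y, G.Adj a x → G.Adj a y → φ a b x = φ a b y → x = y
  par : ∀ a b, φ a b (par a) = par' b

theorem exists_map {r : V} {par : V → V} (h : RP G r par) (r' : V)
    (φ : V → V → V → V) :
    ∃ f : V → V, f r = r' ∧ ∀ w, w ≠ r → f w = φ (par w) (f (par w)) w := by
  let F : ℕ → V → V := fun n => Nat.rec (fun _ => r') (fun _ ih w => φ (par w) (ih (par w)) w) n
  refine ⟨fun w => F (G.dist w r) w, ?_, fun w hw => ?_⟩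
  · simp [F]
  · change F (G.dist w r) w = _
    rw [← h.2 w hw]

theorem map_props (hc : G.Connected) (hK : Cyc G) {r r' : V} {par par' : V → V}
    (h : RP G r par) (h' : RP G r' par') {φ : V → V → V → V} (hφ : Loc G par par' φ)
    {f : V → V} (f0 : f r = r') (f1 : ∀ w, w ≠ r → f w = φ (par w) (f (par w)) w) :
    (∀ w, w ≠ r → f w ≠ r' ∧ par' (f w) = f (par w)) ∧
      ∀ v w, G.Adj v w → G.Adj (f v) (f w) := by
  have A : ∀ n w, G.dist w r = n → w ≠ r → f w ≠ r' ∧ par' (f w) = f (par w) := by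
    intro n
    induction n with
    | zero => intro w hw hne; exact absurd ((hc.dist_eq_zero_iff).1 hw) hne
    | succ n ih =>
      intro w hw hne
      have d := h.2 w hne
      obtain ⟨a1, a2⟩ := (ch_iff hc hK h (par w) w).1 ⟨hne, rfl⟩
      rw [ch_iff hc hK h', f1 w hne]
      refine ⟨hφ.adj _ _ _ a1, ?_⟩
      by_cases e : par w = r
      · left; rw [e, f0]
      · obtain ⟨a3, a4⟩ := a2.resolve_left e
        right
        rw [← hφ.par (par w) (f (par w))]
        exact ⟨fun e' => a3 (hφ.inj _ _ _ _ a1 (h.1 _) e'),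
          fun e' => a4 ((hφ.iff _ _ _ _ a1 (h.1 _)).1 e')⟩
  refine ⟨fun w => A _ w rfl, fun v w hadj => ?_⟩
  rcases tri hc hK h hadj with ⟨h1, h2⟩ | ⟨h1, h2⟩ | ⟨h1, h2, h3⟩
  · rw [f1 w h1, h2]; exact hφ.adj _ _ _ hadj
  · rw [f1 v h1, h2]; exact (hφ.adj _ _ _ hadj.symm).symm
  · rw [f1 v h1, f1 w h2, h3]
    exact (hφ.iff _ _ _ _ (h3 ▸ (h.1 v).symm) (h.1 w).symm).2 hadj

theorem map_inv (hc : G.Connected) {r r' : V} {par par' : V → V}
    (h : RP G r par) {φ ψ : V → V → V → V}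
    (hi : ∀ a b x, G.Adj a x → ψ b a (φ a b x) = x)
    {f g : V → V} (f0 : f r = r') (f1 : ∀ w, w ≠ r → f w = φ (par w) (f (par w)) w)
    (g0 : g r' = r) (g1 : ∀ w, w ≠ r' → g w = ψ (par' w) (g (par' w)) w)
    (f2 : ∀ w, w ≠ r → f w ≠ r' ∧ par' (f w) = f (par w)) : ∀ w, g (f w) = w := by
  have A : ∀ n w, G.dist w r = n → g (f w) = w := by
    intro n
    induction n with
    | zero => intro w hw; rw [(hc.dist_eq_zero_iff).1 hw, f0, g0]
    | succ n ih =>
      intro w hw
      have hne : w ≠ r := by rintro rfl; simp at hw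
      have d := h.2 w hne
      rw [g1 _ (f2 w hne).1, (f2 w hne).2, ih (par w) (by omega), f1 w hne]
      exact hi _ _ _ (h.1 w).symm
  exact fun w => A _ w rfl

theorem arc_trans (hc : G.Connected) (hK : Cyc G) {ι κ : Type u}
    (hl : ∀ a, ∃ c : G.neighborSet a ≃ ι × κ,
      ∀ x y : G.neighborSet a, G.Adj x y ↔ ((c x).1 = (c y).1 ∧ x ≠ y))
    {r p r' p' : V} (h : G.Adj r p) (h' : G.Adj r' p') :
    ∃ f : G ≃g G, f r = r' ∧ f p = p' := by
  classical
  obtain ⟨par, hp, e⟩ := exists_par hc h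
  obtain ⟨par', hp', e'⟩ := exists_par hc h'
  have ex : ∀ a b, ∃ E : G.neighborSet a ≃ G.neighborSet b,
      (∀ x y, G.Adj (E x) (E y) ↔ G.Adj x y) ∧ E ⟨par a, hp.1 a⟩ = ⟨par' b, hp'.1 b⟩ := by
    intro a b
    obtain ⟨c, hc⟩ := hl a
    obtain ⟨d, hd⟩ := hl b
    refine ⟨c.trans ((Equiv.prodCongr
      (Equiv.swap (c ⟨par a, hp.1 a⟩).1 (d ⟨par' b, hp'.1 b⟩).1)
      (Equiv.swap (c ⟨par a, hp.1 a⟩).2 (d ⟨par' b, hp'.1 b⟩).2)).trans d.symm), ?_, ?_⟩
    · intro x y
      rw [hc, hd, (Equiv.injective _).ne_iff]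
      simp
    · simp [Prod.map]
  choose E hE1 hE2 using ex
  let φ : V → V → V → V := fun a b x => if h : G.Adj a x then (E a b ⟨x, h⟩).1 else x
  let ψ : V → V → V → V := fun b a y => if h : G.Adj b y then ((E a b).symm ⟨y, h⟩).1 else y
  have φe : ∀ a b x (h : G.Adj a x), φ a b x = (E a b ⟨x, h⟩).1 := fun a b x h => dif_pos h
  have ψe : ∀ b a y (h : G.Adj b y), ψ b a y = ((E a b).symm ⟨y, h⟩).1 :=
    fun a b x h => dif_pos h
  have hφ : Loc G par par' φ := by
    refine ⟨fun a b x h => ?_, fun a b x y hx hy => ?_, fun a b x y hx hy e => ?_, fun a b => ?_⟩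
    · rw [φe a b x h]; exact (E a b ⟨x, h⟩).2
    · rw [φe a b x hx, φe a b y hy, hE1]
    · rw [φe a b x hx, φe a b y hy] at e
      exact congrArg Subtype.val ((E a b).injective (Subtype.ext e))
    · rw [φe a b _ (hp.1 a), hE2]
  have hψ : Loc G par' par ψ := by
    refine ⟨fun b a x h => ?_, fun b a x y hx hy => ?_, fun b a x y hx hy e => ?_, fun b a => ?_⟩
    · rw [ψe b a x h]; exact ((E a b).symm ⟨x, h⟩).2
    · rw [ψe b a x hx, ψe b a y hy, ← hE1, Equiv.apply_symm_apply, Equiv.apply_symm_apply]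
    · rw [ψe b a x hx, ψe b a y hy] at e
      exact congrArg Subtype.val ((E a b).symm.injective (Subtype.ext e))
    · rw [ψe b a _ (hp'.1 b), ← hE2, Equiv.symm_apply_apply]
  have i1 : ∀ a b x, G.Adj a x → ψ b a (φ a b x) = x := by
    intro a b x h
    rw [ψe b a _ (hφ.adj a b x h)]
    have : (⟨φ a b x, hφ.adj a b x h⟩ : G.neighborSet b) = E a b ⟨x, h⟩ :=
      Subtype.ext (φe a b x h)
    rw [this]; simp
  have i2 : ∀ b a y, G.Adj b y → φ a b (ψ b a y) = y := by
    intro b a y h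
    rw [φe a b _ (hψ.adj b a y h)]
    have : (⟨ψ b a y, hψ.adj b a y h⟩ : G.neighborSet a) = (E a b).symm ⟨y, h⟩ :=
      Subtype.ext (ψe b a y h)
    rw [this]; simp
  obtain ⟨f, f0, f1⟩ := exists_map hp r' φ
  obtain ⟨g, g0, g1⟩ := exists_map hp' r ψ
  obtain ⟨f2, f3⟩ := map_props hc hK hp hp' hφ f0 f1
  obtain ⟨g2, g3⟩ := map_props hc hK hp' hp hψ g0 g1
  have gf := map_inv hc hp i1 f0 f1 g0 g1 f2
  have fg := map_inv hc hp' i2 g0 g1 f0 f1 g2
  refine ⟨⟨⟨f, g, gf, fg⟩, ?_⟩, f0, ?_⟩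
  · intro a b
    refine ⟨fun h => ?_, f3 a b⟩
    have := g3 _ _ h
    simp only [Equiv.coe_fn_mk] at this
    rwa [gf, gf] at this
  · change f p = p'
    have hpr : par p = r := ((ch_iff hc hK hp r p).2 ⟨h, Or.inl rfl⟩).2
    rw [f1 p h.ne', hpr, f0, ← e, hφ.par, e']

end Pool.Agent.H.MP_75f5df_co
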